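import Mathlib
import Pool.Agent.Q74.Shift.Spaces

/-! # MP_2e038a_an: periodic shadowing of bilateral weighted shifts on `ℓ_p(ℤ)` and `c₀(ℤ)`

The answer to Q1 is yes: for every `1 ≤ p < ∞` and every bounded weight bounded away from zero, `B_w` has
the periodic shadowing property on `ℓ_p(ℤ)` iff it has it on `c₀(ℤ)`; moreover on each of these spaces the
property is equivalent to an explicit condition on the weight. -/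

set_option autoImplicit false

open Filter Topology
open scoped ENNReal ZeroAtInfty

namespace Pool.Agent.Results.MP_2e038a_an.PeriodicShadowing

/-- The periodic shadowing property of an invertible bounded operator `T`: for every `ε > 0` there is
`δ > 0` such that every periodic two-sided `δ`-pseudotrajectory is `ε`-shadowed by a periodic point. -/
def PeriodicShadowingProperty {𝕜 X : Type*} [RCLike 𝕜] [NormedAddCommGroup X] [NormedSpace 𝕜 X]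
    (T : X ≃L[𝕜] X) : Prop :=
  ∀ ε : ℝ, 0 < ε → ∃ δ : ℝ, 0 < δ ∧ ∀ x : ℤ → X,
    (∃ q : ℕ, 0 < q ∧ ∀ j : ℤ, x (j + q) = x j) →
    (∀ j : ℤ, ‖T (x j) - x (j + 1)‖ < δ) →
    ∃ y : X, (∃ q : ℕ, 0 < q ∧ (T ^ q) y = y) ∧ ∀ j : ℤ, ‖x j - (T ^ j) y‖ < ε

/-- The explicit condition on the weight: there are `C > 0`, `ρ ∈ (0,1)` and a set `A` of integers such
that, with `P(n,i) = |w_{n+1} ⋯ w_{n+i}|`, either `P(n,i) ≤ C ρ^i` for `n ∈ A` and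
`P(n-i,i)⁻¹ ≤ C ρ^i` for `n ∉ A` (all `i ≥ 0`), or `P(n,i)⁻¹ ≤ C ρ^i` for `n ∈ A` and
`P(n-i,i) ≤ C ρ^i` for `n ∉ A` (all `i ≥ 0`). -/
def WeightCondition {𝕜 : Type*} [RCLike 𝕜] (w : ℤ → 𝕜) : Prop :=
  (∃ (C ρ : ℝ) (A : Set ℤ), 0 < C ∧ 0 < ρ ∧ ρ < 1 ∧
    (∀ n ∈ A, ∀ i : ℕ, ∏ k ∈ Finset.range i, ‖w (n + k + 1)‖ ≤ C * ρ ^ i) ∧
    (∀ n ∉ A, ∀ i : ℕ, (∏ k ∈ Finset.range i, ‖w (n - i + k + 1)‖)⁻¹ ≤ C * ρ ^ i)) ∨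
  (∃ (C ρ : ℝ) (A : Set ℤ), 0 < C ∧ 0 < ρ ∧ ρ < 1 ∧
    (∀ n ∈ A, ∀ i : ℕ, (∏ k ∈ Finset.range i, ‖w (n + k + 1)‖)⁻¹ ≤ C * ρ ^ i) ∧
    (∀ n ∉ A, ∀ i : ℕ, ∏ k ∈ Finset.range i, ‖w (n - i + k + 1)‖ ≤ C * ρ ^ i))

/-- Invertible bounded operators of `ℓ_p(ℤ)`. -/
abbrev OpLp (𝕜 : Type) [RCLike 𝕜] (p : ℝ≥0∞) [Fact (1 ≤ p)] : Type :=
  lp (fun _ : ℤ => 𝕜) p ≃L[𝕜] lp (fun _ : ℤ => 𝕜) p

/-- Invertible bounded operators of `c₀(ℤ)`. -/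
abbrev OpC0 (𝕜 : Type) [RCLike 𝕜] : Type := C₀(ℤ, 𝕜) ≃L[𝕜] C₀(ℤ, 𝕜)

/-- `T` is the weighted backward shift `B_w` of `ℓ_p(ℤ)`. -/
def IsShiftLp {𝕜 : Type} [RCLike 𝕜] {p : ℝ≥0∞} [Fact (1 ≤ p)] (w : ℤ → 𝕜) (T : OpLp 𝕜 p) : Prop :=
  ∀ x n, T x n = w (n + 1) * x (n + 1)

/-- `T` is the weighted backward shift `B_w` of `c₀(ℤ)`. -/
def IsShiftC0 {𝕜 : Type} [RCLike 𝕜] (w : ℤ → 𝕜) (T : OpC0 𝕜) : Prop :=
  ∀ x n, T x n = w (n + 1) * x (n + 1)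

/-- The periodic shadowing property on `ℓ_p(ℤ)`. -/
def LpPSP {𝕜 : Type} [RCLike 𝕜] {p : ℝ≥0∞} [Fact (1 ≤ p)] (T : OpLp 𝕜 p) : Prop :=
  PeriodicShadowingProperty T

/-- The periodic shadowing property on `c₀(ℤ)`. -/
def C0PSP {𝕜 : Type} [RCLike 𝕜] (T : OpC0 𝕜) : Prop := PeriodicShadowingProperty T

/-- Let `𝕜 = ℝ` or `ℂ`, `1 ≤ p < ∞` and let `w` be a bounded weight with `inf |w_n| > 0`. Then `B_w` is an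
invertible bounded operator of `ℓ_p(ℤ)` and of `c₀(ℤ)`, and whenever `Tp`, `T0` are these operators, the
following are equivalent: `Tp` has the periodic shadowing property; `T0` has it; `WeightCondition w`. -/
theorem result : ∀ (𝕜 : Type) [RCLike 𝕜] (p : ℝ≥0∞) [Fact (1 ≤ p)], p ≠ ⊤ →
    ∀ w : ℤ → 𝕜, (∃ M : ℝ, ∀ n, ‖w n‖ ≤ M) → (∃ m : ℝ, 0 < m ∧ ∀ n, m ≤ ‖w n‖) →
    (∃ Tp : OpLp 𝕜 p, IsShiftLp w Tp) ∧ (∃ T0 : OpC0 𝕜, IsShiftC0 w T0) ∧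
    ∀ (Tp : OpLp 𝕜 p) (T0 : OpC0 𝕜), IsShiftLp w Tp → IsShiftC0 w T0 →
      (LpPSP Tp ↔ C0PSP T0) ∧ (LpPSP Tp ↔ WeightCondition w) := by
  intro 𝕜 _ p _ hp w ⟨M, hM⟩ ⟨m, hm, hwm⟩
  have hw : ∀ n, w n ≠ 0 := fun n => norm_pos_iff.1 (hm.trans_le (hwm n))
  refine ⟨?_, ?_, fun Tp T0 hTp hT0 => ?_⟩
  · exact Q74.Shift.exists_shift (Q74.Shift.lpSeq 𝕜 p hp) hM hm hwm
  · exact Q74.Shift.exists_shift (Q74.Shift.c0Seq 𝕜) hM hm hwm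
  · have h1 : LpPSP Tp ↔ WeightCondition w :=
      Q74.Shift.psp_iff (Q74.Shift.lpSeq 𝕜 p hp) hw hTp
    have h2 : C0PSP T0 ↔ WeightCondition w :=
      Q74.Shift.psp_iff (Q74.Shift.c0Seq 𝕜) hw hT0
    exact ⟨h1.trans h2.symm, h1⟩

end Pool.Agent.Results.MP_2e038a_an.PeriodicShadowing
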